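import Mathlib

namespace Pool.Agent.Results.MP_c1e3ac_co.Full

variable {B W : Type} [Group W] {M : CoxeterMatrix B}

/-- The cost of a list of group elements: the sum of (1 + length) / 2. -/
noncomputable def cost (cs : CoxeterSystem M W) (l : List W) : ℕ :=
  (l.map fun t => (1 + cs.length t) / 2).sum

/-- Factorizations of w into reflections. -/
def IsFact (cs : CoxeterSystem M W) (w : W) (l : List W) : Prop :=
  (∀ t ∈ l, cs.IsReflection t) ∧ l.prod = w

def M3 : CoxeterMatrix (Fin 3) where
  M := !![1, 3, 3; 3, 1, 3; 3, 3, 1]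
  isSymm := by decide
  diagonal := by decide
  off_diagonal := by decide

abbrev P := ℤ × ℤ × ℤ

def f (i : Fin 3) : Function.End P := fun x =>
  if i = 0 then (x.2.2 - 3, x.2.1, x.1 + 3) else if i = 1 then (x.2.1, x.1, x.2.2)
  else (x.1, x.2.2, x.2.1)

theorem lf : M3.IsLiftable f := by
  intro i j
  funext ⟨a, b, c⟩
  fin_cases i <;> fin_cases j <;>
    simp [M3, f, pow_succ, Function.End.mul_def, Function.End.one_def]

def act (u : List (Fin 3)) (x : P) : P := u.foldr f x

def allW : ℕ → List (List (Fin 3))
  | 0 => [[]]
  | n + 1 => [] :: (allW n).flatMap fun u => [0 :: u, 1 :: u, 2 :: u]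

theorem mem_allW : ∀ (n : ℕ) (u : List (Fin 3)), u.length ≤ n → u ∈ allW n
  | 0, [], _ => by simp [allW]
  | _ + 1, [], _ => by simp [allW]
  | n + 1, i :: u, h => by
    refine List.mem_cons_of_mem _ (List.mem_flatMap.2 ⟨u, mem_allW n u (by simpa using h), ?_⟩)
    fin_cases i <;> simp

def w0 : List (Fin 3) := [0, 2, 1, 0, 2, 1, 0]

theorem uniq : ∀ u ∈ allW 7, act u (1, 2, 3) = act w0 (1, 2, 3) → u = w0 := by decide +kernel

theorem inf : ∀ i < 8, ∀ j < 8, act ((w0.drop i).take j) (act ((w0.drop i).take j) (1, 2, 3))
    = (1, 2, 3) → ((w0.drop i).take j).length ≤ 1 := by decide +kernel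

theorem result : ∃ (B W : Type) (_ : Group W) (M : CoxeterMatrix B) (cs : CoxeterSystem M W)
    (w : W), (∃ l, IsFact cs w l) ∧ ∀ l, IsFact cs w l →
      (∀ l', IsFact cs w l' → cost cs l ≤ cost cs l') → cs.length w < (l.map cs.length).sum := by
  let cs := M3.toCoxeterSystem
  let φ := cs.lift ⟨f, lf⟩
  have hφ : ∀ u x, φ (cs.wordProd u) x = act u x := by
    intro u x
    induction u with
    | nil => rfl
    | cons i u ih =>
      rw [cs.wordProd_cons, map_mul, cs.lift_apply_simple lf, Function.End.mul_def,
        Function.comp_apply, ih]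
      rfl
  have br : ∀ i j : Fin 3, i ≠ j →
      cs.simple i * cs.simple j * cs.simple i = cs.simple j * cs.simple i * cs.simple j := by
    intro i j h
    have h3 : M3 i j = 3 := by revert i j; decide
    have := cs.simple_mul_simple_pow i j
    rw [h3] at this
    calc _ = (cs.simple i * cs.simple j) ^ 3 * (cs.simple j * cs.simple i * cs.simple j) := by
          simp [pow_succ, mul_assoc]
      _ = _ := by rw [this, one_mul]
  have hf : IsFact cs (cs.wordProd w0)
      [cs.wordProd [2, 0, 2], cs.wordProd [1], cs.wordProd [0, 2, 1, 2, 0]] := by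
    constructor
    · simp only [List.forall_mem_cons, List.not_mem_nil, false_imp_iff, implies_true, and_true]
      exact ⟨⟨cs.simple 2, 0, by simp [cs.wordProd_cons, mul_assoc]⟩,
        ⟨1, 1, by simp⟩, ⟨cs.simple 0 * cs.simple 2, 1, by simp [cs.wordProd_cons, mul_assoc]⟩⟩
    · have b1 := br 2 0 (by decide)
      have b2 := br 1 2 (by decide)
      have b3 := br 0 1 (by decide)
      have e0 := cs.simple_mul_simple_self 2
      simp only [w0, List.prod_cons, List.prod_nil, cs.wordProd_cons, cs.wordProd_nil, mul_one]
      generalize cs.simple 0 = a at *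
      generalize cs.simple 1 = b at *
      generalize cs.simple 2 = c at *
      calc _ = c * a * c * (b * a * c * b * c * a) := by simp only [mul_assoc]
        _ = a * c * (a * b * a) * (c * b * c * a) := by rw [b1]; simp only [mul_assoc]
        _ = a * c * b * a * (b * c * b) * (c * a) := by rw [b3]; simp only [mul_assoc]
        _ = a * c * b * a * c * b * (c * c) * a := by rw [b2]; simp only [mul_assoc]
        _ = _ := by rw [e0]; simp only [mul_assoc, one_mul]
  refine ⟨Fin 3, _, inferInstance, M3, cs, cs.wordProd w0, ⟨_, hf⟩, fun l hl hmin => ?_⟩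
  have c6 : cost cs l ≤ 6 := by
    refine (hmin _ hf).trans ?_
    have h1 := cs.length_wordProd_le [2, 0, 2]
    have h2 := cs.length_wordProd_le [1]
    have h3 := cs.length_wordProd_le [0, 2, 1, 2, 0]
    simp only [cost, List.map_cons, List.map_nil, List.sum_cons, List.sum_nil, List.length_cons,
      List.length_nil] at *
    omega
  by_contra hc
  have h7 : (l.map cs.length).sum ≤ 7 := (not_lt.1 hc).trans (cs.length_wordProd_le w0)
  choose r hr1 hr2 using cs.exists_isReduced
  have e1 : ∀ l : List M3.Group, cs.wordProd (l.flatMap r) = l.prod ∧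
      (l.flatMap r).length = (l.map cs.length).sum := by
    intro l
    induction l with
    | nil => simp
    | cons t l ih =>
      rw [List.flatMap_cons, cs.wordProd_append, ih.1, ← hr2, List.length_append, ih.2,
        ← (hr1 t).eq, ← hr2]
      simp
  have e2 : l.flatMap r = w0 := uniq _ (mem_allW _ _ ((e1 l).2 ▸ h7))
    (by rw [← hφ, ← hφ, (e1 l).1, hl.2])
  have e3 : ∀ t ∈ l, cs.length t = 1 := by
    intro t ht
    obtain ⟨a, b, rfl⟩ := List.append_of_mem ht
    have hrt : r t = (w0.drop (a.flatMap r).length).take (r t).length := by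
      rw [← e2]; simp
    have hlen := congrArg List.length e2
    simp only [List.flatMap_append, List.flatMap_cons, List.length_append, w0, List.length_cons,
      List.length_nil] at hlen
    have := inf (a.flatMap r).length (by omega) (r t).length (by omega)
    rw [← hrt, ← hφ, ← hφ, ← hr2] at this
    have h1 := this (by
      have := congrArg (fun g => φ g (1, 2, 3)) (hl.1 t ht).mul_self
      simpa [map_mul, Function.End.mul_def, Function.End.one_def] using this)
    have h2 := (hl.1 t ht).odd_length
    rw [← (hr1 t).eq, ← hr2] at h1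
    obtain ⟨k, hk⟩ := h2
    omega
  have e4 : cost cs l = (l.map cs.length).sum := by
    unfold cost
    congr 1
    exact List.map_congr_left fun t ht => by rw [e3 t ht]
  rw [e4, ← (e1 l).2, e2] at c6
  simp [w0] at c6

end Pool.Agent.Results.MP_c1e3ac_co.Full
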